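import Mathlib
import Pool.Agent.Lib.helper26.AltA

namespace Pool.Agent.Results.MP_bae362_pr.Contamination
open MeasureTheory Pool.Agent.Lib.helper26.Alt

/-- the posterior upper probability in the `ε`-contamination model -/
noncomputable def post {E : Type} [MeasurableSpace E] (P : Measure E) (L : E → ℝ) (ε : ℝ)
    (A : Set E) : ℝ :=
  ((1 - ε) * ∫ x in A, L x ∂P + ε * sSup (L '' A)) / ((1 - ε) * ∫ x, L x ∂P + ε * sSup (L '' A))

theorem result (E : Type) [MeasurableSpace E] (P : Measure E) [IsProbabilityMeasure P]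
    (L : E → ℝ) (hL : ∀ x, 0 ≤ L x) (hb : BddAbove (Set.range L)) (hm : Measurable L)
    (ε : ℝ) (h0 : 0 < ε) (h1 : ε < 1)
    (n : ℕ) (hn : 1 ≤ n) (A : Fin n → Set E) (hA : ∀ i, MeasurableSet (A i)) :
    AltIneq (post P L ε) A := by
  classical
  refine altIneq_of_CM _ hn A ?_
  obtain ⟨K, hK⟩ := hb
  have hK' : ∀ x, L x ≤ K := fun x => hK ⟨x, rfl⟩
  have hi : Integrable L P := Integrable.of_bound hm.aestronglyMeasurable K
    (.of_forall fun x => by rw [Real.norm_of_nonneg (hL x)]; exact hK' x)
  have hbd : ∀ S : Set E, BddAbove (L '' S) := fun S => ⟨K, by rintro _ ⟨x, -, rfl⟩; exact hK' x⟩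
  have hM0 : ∀ S : Set E, 0 ≤ sSup (L '' S) := fun S =>
    Real.sSup_nonneg (by rintro _ ⟨x, -, rfl⟩; exact hL x)
  have hMu : ∀ I J, sSup (L '' U A (I ∪ J)) = max (sSup (L '' U A I)) (sSup (L '' U A J)) :=
    fun I J => by rw [U_union, sSup_union hL (hbd _) (hbd _)]
  have hMle : ∀ I, sSup (L '' U A I) ≤ sSup (L '' U A Finset.univ) := fun I => by
    rw [← Finset.union_eq_right.2 (Finset.subset_univ I), hMu]
    exact le_max_left _ _
  have hε : 0 < 1 - ε := by linarith
  rcases (integral_nonneg (μ := P) (f := L) hL).eq_or_lt with hz | hz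
  · have h2 : ∀ I, ∫ x in U A I, L x ∂P = 0 := fun I =>
      le_antisymm ((setIntegral_le_integral hi (.of_forall hL)).trans hz.ge)
        (integral_nonneg hL)
    simp only [post, h2, ← hz, mul_zero, zero_add]
    refine CM.sign _ (fun I => mul_nonneg h0.le (hM0 _)) (fun I J => ?_) fun I J => ?_
    · rw [hMu]
      exact mul_le_mul_of_nonneg_left (le_max_left _ _) h0.le
    · rw [hMu, ← mul_add]
      exact mul_le_mul_of_nonneg_left (max_le_add_of_nonneg (hM0 _) (hM0 _)) h0.le
  · have h2 : CM (List.finRange n) fun I => ∫ x in (U A I)ᶜ, L x ∂P := by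
      convert CM.integral (P := P) (f := fun x I => (U A I)ᶜ.indicator L x) (fun x => ?_)
        fun I => hi.indicator (U_meas hA I).compl using 2 with I
      · rw [integral_indicator (U_meas hA I).compl]
      · convert (CM.const _ (hL x)).mul (CM.max (List.finRange n)
          (h := fun I => if x ∈ U A I then (1 : ℝ) else 0) (K := 1) (fun I J => ?_)
          fun I => by split_ifs <;> norm_num) using 2 with I
        · by_cases a : x ∈ U A I <;> simp [a]
        · simp only [U_union, Set.mem_union]
          by_cases a : x ∈ U A I <;> by_cases b : x ∈ U A J <;> simp [a, b]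
    have hpos : ∀ I, 0 < (1 - ε) * ∫ x, L x ∂P + ε * sSup (L '' U A I) := fun I => by
      have := hM0 (U A I)
      positivity
    have h3 : CM (List.finRange n) fun I => ((1 - ε) * ∫ x, L x ∂P +
        ε * sSup (L '' U A Finset.univ)) - ((1 - ε) * ∫ x, L x ∂P + ε * sSup (L '' U A I)) := by
      convert (CM.const _ h0.le).mul (CM.max (List.finRange n) hMu hMle) using 2
      ring
    convert ((CM.const _ hε.le).mul h2).div h3 hpos fun I => by
      linarith [mul_le_mul_of_nonneg_left (hMle I) h0.le] using 2 with I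
    have := (hpos I).ne'
    rw [post, ← integral_add_compl (U_meas hA I) hi] at *
    field_simp
    ring

end Pool.Agent.Results.MP_bae362_pr.Contamination
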