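import Mathlib
import Pool.Agent.Lib.helper26.AltA

namespace Pool.Agent.Results.MP_bae362_pr.Selections
open MeasureTheory Pool.Agent.Lib.helper26.Alt

variable {Ω E : Type}

/-- `sup_{x ∈ X ∩ A} L x`, with value `0` for the empty set -/
noncomputable def sInt (X : Ω → Set E) (L : E → ℝ) (A : Set E) (ω : Ω) : ℝ :=
  sSup (L '' (X ω ∩ A))

open Classical in
/-- `inf_{x ∈ X} L x · 1{X ∩ A = ∅}` -/
noncomputable def tInt (X : Ω → Set E) (L : E → ℝ) (A : Set E) (ω : Ω) : ℝ :=
  sInf (L '' X ω) * if X ω ∩ A = ∅ then 1 else 0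

/-- the posterior upper probability `s(A) / (s(A) + t(A))` -/
noncomputable def post [MeasurableSpace Ω] (P : Measure Ω) (X : Ω → Set E) (L : E → ℝ)
    (A : Set E) : ℝ :=
  (∫ ω, sInt X L A ω ∂P) / (∫ ω, sInt X L A ω ∂P + ∫ ω, tInt X L A ω ∂P)

lemma sum_eq {X : Ω → Set E} {L : E → ℝ} (hL : ∀ x, 0 ≤ L x) (hb : ∀ ω, BddAbove (L '' X ω))
    (A : Set E) (ω : Ω) : sInt X L A ω + tInt X L A ω = max (sInf (L '' X ω)) (sInt X L A ω) := by
  have h0 : 0 ≤ sInf (L '' X ω) := Real.sInf_nonneg (by rintro _ ⟨x, -, rfl⟩; exact hL x)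
  simp only [sInt, tInt]
  split_ifs with h
  · simp [h, h0]
  · obtain ⟨x, hx⟩ := Set.nonempty_iff_ne_empty.2 h
    have h1 : sInf (L '' X ω) ≤ L x :=
      csInf_le ⟨0, by rintro _ ⟨y, -, rfl⟩; exact hL y⟩ ⟨x, hx.1, rfl⟩
    have h2 : L x ≤ sSup (L '' (X ω ∩ A)) :=
      le_csSup ((hb ω).mono (Set.image_mono Set.inter_subset_left)) ⟨x, hx, rfl⟩
    simp [h1.trans h2]

lemma s_union {X : Ω → Set E} {L : E → ℝ} (hL : ∀ x, 0 ≤ L x) (hb : ∀ ω, BddAbove (L '' X ω))
    (A B : Set E) (ω : Ω) : sInt X L (A ∪ B) ω = max (sInt X L A ω) (sInt X L B ω) := by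
  simp only [sInt, Set.inter_union_distrib_left]
  exact sSup_union hL ((hb ω).mono (Set.image_mono Set.inter_subset_left))
    ((hb ω).mono (Set.image_mono Set.inter_subset_left))

theorem result (Ω E : Type) [MeasurableSpace Ω] [MeasurableSpace E] (P : Measure Ω)
    [IsProbabilityMeasure P] (X : Ω → Set E) (L : E → ℝ) (hL : ∀ x, 0 ≤ L x)
    (hb : ∀ ω, BddAbove (L '' X ω))
    (hi : ∀ A, MeasurableSet A → Integrable (sInt X L A) P ∧ Integrable (tInt X L A) P)
    (n : ℕ) (hn : 1 ≤ n) (A : Fin n → Set E) (hA : ∀ i, MeasurableSet (A i)) :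
    AltIneq (post P X L) A := by
  classical
  refine altIneq_of_CM _ hn A ?_
  have hs := fun I => (hi _ (U_meas hA I)).1
  have ht := fun I => (hi _ (U_meas hA I)).2
  have hc0 : ∀ ω, 0 ≤ sInf (L '' X ω) := fun ω =>
    Real.sInf_nonneg (by rintro _ ⟨x, -, rfl⟩; exact hL x)
  have hs0 : ∀ B ω, 0 ≤ sInt X L B ω := fun B ω =>
    Real.sSup_nonneg (by rintro _ ⟨x, -, rfl⟩; exact hL x)
  have ht0 : ∀ B ω, 0 ≤ tInt X L B ω := fun B ω => mul_nonneg (hc0 ω) (by positivity)
  set d : Ω → Finset (Fin n) → ℝ := fun ω I => sInt X L (U A I) ω + tInt X L (U A I) ω with hd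
  have hdi : ∀ I, Integrable (fun ω => d ω I) P := fun I => (hs I).add (ht I)
  have hdm : ∀ ω I J, d ω (I ∪ J) = max (d ω I) (d ω J) := by
    intro ω I J
    simp only [hd, sum_eq hL hb, U_union, s_union hL hb]
    exact sup_sup_distrib_left ..
  have hdle : ∀ ω I J, I ⊆ J → d ω I ≤ d ω J := by
    intro ω I J h
    rw [← Finset.union_eq_right.2 h, hdm]
    exact le_max_left _ _
  have hD : ∀ I, ∫ ω, d ω I ∂P = ∫ ω, sInt X L (U A I) ω ∂P + ∫ ω, tInt X L (U A I) ω ∂P :=
    fun I => integral_add (hs I) (ht I)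
  by_cases h0 : 0 < ∫ ω, d ω ∅ ∂P
  · have hpos : ∀ I, 0 < ∫ ω, d ω I ∂P := fun I =>
      h0.trans_le (integral_mono (hdi _) (hdi _) fun ω => hdle ω _ _ (Finset.empty_subset _))
    have h1 : CM (List.finRange n) fun I => ∫ ω, tInt X L (U A I) ω ∂P := by
      refine CM.integral (fun ω => ?_) ht
      convert (CM.const _ (hc0 ω)).mul (CM.max (List.finRange n)
        (h := fun I => if X ω ∩ U A I = ∅ then (0 : ℝ) else 1) (K := 1) (fun I J => ?_)
        fun I => by split_ifs <;> norm_num) using 2 with I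
      · simp only [tInt]
        split_ifs <;> simp
      · simp only [U_union, Set.inter_union_distrib_left, Set.union_empty_iff]
        by_cases a : X ω ∩ U A I = ∅ <;> by_cases b : X ω ∩ U A J = ∅ <;> simp [a, b]
    have h2 : CM (List.finRange n) fun I => ∫ ω, d ω Finset.univ ∂P - ∫ ω, d ω I ∂P := by
      convert CM.integral (P := P) (fun ω => CM.max (List.finRange n) (hdm ω)
        fun I => hdle ω I _ (Finset.subset_univ _)) fun I => (hdi _).sub (hdi _) using 2 with I
      rw [integral_sub (hdi _) (hdi _)]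
    convert h1.div h2 hpos fun I =>
      integral_mono (hdi _) (hdi _) fun ω => hdle ω _ _ (Finset.subset_univ _) using 2 with I
    have := (hpos I).ne'
    rw [hD] at this
    rw [post, hD]
    field_simp
    ring
  · have h1 : ∀ I, ∫ ω, tInt X L (U A I) ω ∂P = 0 := by
      intro I
      refine le_antisymm (le_trans ?_ (not_lt.1 h0)) (integral_nonneg (ht0 _))
      refine integral_mono (ht I) (hdi _) fun ω => ?_
      simp only [hd, sum_eq hL hb]
      refine le_trans ?_ (le_max_left _ _)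
      simp only [tInt]
      split_ifs <;> simp [hc0]
    simp only [post, h1, add_zero]
    refine CM.sign _ (fun I => integral_nonneg (hs0 _)) (fun I J => ?_) fun I J => ?_
    · refine integral_mono (hs _) (hs _) fun ω => ?_
      rw [U_union, s_union hL hb]
      exact le_max_left _ _
    · rw [← integral_add (hs _) (hs _)]
      refine integral_mono (hs _) ((hs _).add (hs _)) fun ω => ?_
      simp only [U_union, s_union hL hb]
      exact max_le_add_of_nonneg (hs0 _ _) (hs0 _ _)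

end Pool.Agent.Results.MP_bae362_pr.Selections
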